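import Pool.Agent.H39.Newt3.Base

/-!
# Project NEWTON3, module TRF: from linear forms to the group ring
-/

set_option autoImplicit false

namespace Pool.Newt3

open MvPolynomial Pool.Agent.H39.MonoR Pool.Agent.H75.Mono Pool.Newt Pool.Newt2

section

variable {I : Type} [Fintype I]

theorem TRF_noeth : IsNoetherianRing (GR I) := by
  haveI : AddGroup.FG (I → ℤ) := Module.Finite.iff_addGroup_fg.1 inferInstance
  haveI : AddMonoid.FG (I → ℤ) := AddGroup.fg_iff_addMonoid_fg.1 inferInstance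
  exact Algebra.FiniteType.isNoetherianRing ℂ _

/-- the unit `x^β` -/
noncomputable def TRF_u (β : I → ℤ) : (GR I)ˣ where
  val := AddMonoidAlgebra.single β 1
  inv := AddMonoidAlgebra.single (-β) 1
  val_inv := by
    rw [AddMonoidAlgebra.single_mul_single, add_neg_cancel, one_mul]
    rfl
  inv_val := by
    rw [AddMonoidAlgebra.single_mul_single, neg_add_cancel, one_mul]
    rfl

theorem TRF_u_add (β γ : I → ℤ) : TRF_u (β + γ) = TRF_u β * TRF_u γ := by
  ext1
  simp [TRF_u, AddMonoidAlgebra.single_mul_single]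

theorem TRF_u_zero : TRF_u (0 : I → ℤ) = 1 := by
  ext1
  rfl

/-- as a homomorphism -/
noncomputable def TRF_h : Multiplicative (I → ℤ) →* (GR I)ˣ where
  toFun β := TRF_u β.toAdd
  map_one' := TRF_u_zero
  map_mul' β γ := TRF_u_add _ _

theorem TRF_prod [DecidableEq I] (β : I → ℤ) :
    ∏ i, (TRF_u (Pi.single i (1 : ℤ) : I → ℤ)) ^ β i = TRF_u β := by
  have e1 : ∀ i, (TRF_u (Pi.single i (1 : ℤ) : I → ℤ)) ^ β i =
      TRF_h (Multiplicative.ofAdd (β i • (Pi.single i (1 : ℤ) : I → ℤ))) := by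
    intro i
    rw [ofAdd_zsmul, map_zpow]
    rfl
  simp only [e1]
  rw [← map_prod, ← ofAdd_sum]
  have e2 : ∑ i, β i • (Pi.single i (1 : ℤ) : I → ℤ) = β := by
    ext j
    rw [Finset.sum_apply, Finset.sum_eq_single j]
    · simp
    · intro i _ hij
      simp [Pi.single_eq_of_ne hij.symm]
    · simp
  rw [e2]
  rfl

end

/-- Module TRF. -/
theorem sTrf (hNil : SNil) (hKru : SKru) : STrf := by
  classical
  intro I D _ β 𝒢 P hmem
  haveI : IsNoetherianRing (GR I) := TRF_noeth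
  let m : Ideal (GR I) := RingHom.ker (evp (1 : I → ℂˣ) : GR I →+* ℂ)
  have hmm : ∀ x : GR I, x ∈ m ↔ evp (1 : I → ℂˣ) x = 0 := fun x => RingHom.mem_ker
  let gd : D → GR I := fun d => 1 - AddMonoidAlgebra.single (β d) 1
  let J : Ideal (GR I) := Ideal.span {g | ∃ S ∈ 𝒢, g = ∏ d ∈ S, gd d}
  let a : GR I := ∏ d ∈ P, gd d
  have key : ∀ N : ℕ, a ∈ J ⊔ m ^ N := by
    intro N
    let A := GR I ⧸ (m ^ N)
    let π : GR I →ₐ[ℂ] A := Ideal.Quotient.mkₐ ℂ (m ^ N)
    let x : I → Aˣ := fun i => Units.map (π : GR I →* A) (TRF_u (Pi.single i (1 : ℤ)))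
    have hx : ∀ i, IsNilpotent ((x i : A) - 1) := by
      intro i
      refine ⟨N, ?_⟩
      have e1 : ((x i : A) - 1) = π (AddMonoidAlgebra.single (Pi.single i (1 : ℤ)) 1 - 1) := by
        rw [map_sub, map_one]
        rfl
      rw [e1, ← map_pow]
      refine Ideal.Quotient.eq_zero_iff_mem.2 (Ideal.pow_mem_pow ?_ N)
      rw [hmm, map_sub, map_one, evp_one_single, sub_self]
    obtain ⟨L, hL⟩ := hNil I A x hx
    have hprod : ∀ γ : I → ℤ, ((∏ i, x i ^ γ i : Aˣ) : A) = π (AddMonoidAlgebra.single γ 1) := by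
      intro γ
      have e1 : (∏ i, x i ^ γ i : Aˣ) = Units.map (π : GR I →* A) (TRF_u γ) := by
        rw [← TRF_prod γ, map_prod]
        refine Finset.prod_congr rfl fun i _ => ?_
        rw [map_zpow]
      rw [e1]
      rfl
    have hlf : ∀ d : D, ∃ v : Aˣ, aeval L (lfC (β d)) = v * π (gd d) := by
      intro d
      obtain ⟨v, hv⟩ := hL (β d)
      refine ⟨-v, ?_⟩
      rw [hprod] at hv
      have e1 : aeval L (lfC (β d)) = ∑ i, ((β d i : ℤ) : A) * L i := by
        unfold lfC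
        rw [map_sum]
        refine Finset.sum_congr rfl fun i _ => ?_
        rw [map_mul, aeval_C, aeval_X, map_intCast]
      rw [e1, hv]
      simp only [gd, map_sub, map_one, Units.val_neg]
      ring
    choose v hv using hlf
    have hpr : ∀ S : Finset D, ∃ w : Aˣ, aeval L (∏ d ∈ S, lfC (β d)) = w * π (∏ d ∈ S, gd d) := by
      intro S
      refine ⟨∏ d ∈ S, v d, ?_⟩
      rw [map_prod, map_prod, Units.coe_prod, ← Finset.prod_mul_distrib]
      exact Finset.prod_congr rfl fun d _ => hv d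
    -- the image of the membership
    have h1 : aeval L (∏ d ∈ P, lfC (β d) : MvPolynomial I ℂ) ∈
        Ideal.map (aeval L : MvPolynomial I ℂ →ₐ[ℂ] A) (Ideal.span
          {g | ∃ S ∈ 𝒢, g = ∏ d ∈ S, lfC (β d)}) := Ideal.mem_map_of_mem _ hmem
    have h2 : Ideal.map (aeval L : MvPolynomial I ℂ →ₐ[ℂ] A) (Ideal.span
        {g | ∃ S ∈ 𝒢, g = ∏ d ∈ S, lfC (β d)}) ≤ Ideal.map π J := by
      rw [Ideal.map_span, Ideal.span_le]
      rintro _ ⟨_, ⟨S, hS, rfl⟩, rfl⟩
      obtain ⟨w, hw⟩ := hpr S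
      rw [hw]
      exact Ideal.mul_mem_left _ _ (Ideal.mem_map_of_mem _ (Ideal.subset_span ⟨S, hS, rfl⟩))
    obtain ⟨w, hw⟩ := hpr P
    have h3 : π a ∈ Ideal.map π J := by
      have h4 := h2 h1
      rw [hw] at h4
      have h5 := Ideal.mul_mem_left (Ideal.map π J) ((w⁻¹ : Aˣ) : A) h4
      rw [← mul_assoc, Units.inv_mul, one_mul] at h5
      exact h5
    have hsurj : Function.Surjective π := Ideal.Quotient.mkₐ_surjective ℂ _
    obtain ⟨j, hj, hja⟩ := (Ideal.mem_map_iff_of_surjective (π : GR I →ₐ[ℂ] A) hsurj).1 h3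
    have h6 : a - j ∈ m ^ N := by
      have : π (a - j) = 0 := by rw [map_sub, hja, sub_self]
      exact Ideal.Quotient.eq_zero_iff_mem.1 this
    have h7 : a = j + (a - j) := by ring
    rw [h7]
    exact Submodule.add_mem_sup hj h6
  obtain ⟨u, hu1, hu2⟩ := hKru (GR I) J m a key
  refine ⟨u, ?_, hu2⟩
  have := (hmm _).1 hu1
  rw [map_sub, map_one, sub_eq_zero] at this
  rw [this]
  exact one_ne_zero

end Pool.Newt3
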